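import Pool.Agent.K9h54.WQ.Long

/-!
# The Wilson quotients of consecutive orders are equidistributed modulo 1 for almost all primes

For a prime `p` and `1 ≤ n ≤ p` the number `(-1) ^ n (n - 1)! (p - n)! - 1` is divisible by `p`; the quotient `w_n(p)` is the
Wilson quotient of order `n` (up to the sign `(-1) ^ n`), and `p` is a Wilson prime of order `n` if `p` divides `w_n(p)`. The
Wilson primes of the problem are those of order `1`.

Proof. We have `w_(n+1)(p) - w_n(p) ≡ 1 / n` modulo `p`. So the difference of two quotients of orders `n < n'` is the rational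
number `C / Q = 1 / n + … + 1 / (n' - 1)` modulo `p`, and by reciprocity
`e (h (w_n'(p) - w_n(p)) / p) = e (h C / (p Q)) e (- h C p⁻¹ / Q)`, `p⁻¹` the inverse modulo `Q`. The second factor is periodic
in `p`, and by the theorem of Siegel and Walfisz its mean value over the primes is a complete sum over the units modulo `Q`.
This sum is zero if `n' - n ≥ 4 · 2 ^ v`, `2 ^ v` the power of `2` in `h`, since `2` divides the denominator of `h C / Q` more
than once. Therefore the mean square over the primes of the exponential sum over `N` consecutive orders is `O(2 ^ v N)`.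
Then an inequality of Erdős and Turán type gives the discrepancy.
-/

set_option autoImplicit false

namespace Pool.Agent.Results.MP_de5eaa_nt.QuotientsOfConsecutiveOrders

open Finset
open scoped Nat

/-- `w_n(p) = ((-1) ^ n (n - 1)! (p - n)! - 1) / p` -/
def quotient (n p : ℕ) : ℤ := ((-1) ^ n * ((n - 1)! * (p - n)! : ℕ) - 1) / p

open Classical in
/-- the number of the orders `n` with `M < n ≤ M + N` such that the fractional part of `w_n(p) / p` is in `[α, β)` -/
noncomputable def count (M N p : ℕ) (α β : ℝ) : ℕ :=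
  ((Ioc M (M + N)).filter fun n => α ≤ Int.fract ((quotient n p : ℝ) / p) ∧ Int.fract ((quotient n p : ℝ) / p) < β).card

/-- the primes `p` with `m ≤ p ≤ x` -/
def primes (m x : ℕ) : Finset ℕ := (Icc 1 x).filter fun p => p.Prime ∧ m ≤ p

/-- For each `A` and all large `x`: if `2 ≤ K ≤ N` and `(M + N) ^ K ≤ log ^ A x` then for all choices of arcs
`[α_p, β_p)` of `[0, 1)`, one for each prime, the sum over the primes `M + N ≤ p ≤ x` of the absolute values of
`#{M < n ≤ M + N | w_n(p) / p modulo 1 in the arc} - (β_p - α_p) N` is at most `300 N (log K / √K) π(x)`. -/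
theorem result (A : ℕ) : ∃ x₀ : ℕ, ∀ x : ℕ, x₀ ≤ x → ∀ M N K : ℕ, 2 ≤ K → K ≤ N →
    ((M + N : ℕ) : ℝ) ^ K ≤ Real.log x ^ A → ∀ α β : ℕ → ℝ,
    (∀ p, 0 ≤ α p ∧ α p ≤ β p ∧ β p ≤ 1) →
    ∑ p ∈ primes (M + N) x, |(count M N p (α p) (β p) : ℝ) - N * (β p - α p)| ≤
      300 * (N * (Real.log K / √K)) * (primes 1 x).card := by
  obtain ⟨x₀, h⟩ := Pool.Agent.K9h54.WQ.main2 A
  refine ⟨x₀, fun x hx M N K hK hKN hMN α β hab => ?_⟩
  have h1 := h x hx M N K hK hKN hMN α β hab
  have e1 : (primes 1 x).card = ((Icc 1 x).filter Nat.Prime).card := by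
    congr 1
    ext p
    unfold primes
    rw [mem_filter, mem_filter]
    exact ⟨fun h => ⟨h.1, h.2.1⟩, fun h => ⟨h.1, h.2, h.2.one_lt.le⟩⟩
  rw [e1]
  have e2 : (N : ℝ) * (Real.log K / √K) = N / √K * Real.log K := by ring
  rw [e2]
  exact h1

end Pool.Agent.Results.MP_de5eaa_nt.QuotientsOfConsecutiveOrders
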