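import Pool.Agent.K9h54.WQ.Rare

/-!
# Wilson primes of order `n` are rare for most orders

A prime `p ≥ n` is a Wilson prime of order `n` if `(n - 1)! (p - n)! ≡ (-1) ^ n` modulo `p ^ 2`; the Wilson primes of the problem
are those of order `1`. More generally let `T p` be a set of at most `B` integers and consider the primes for which the Wilson
quotient `((-1) ^ n (n - 1)! (p - n)! - 1) / p` is congruent modulo `p` to an element of `T p` (`T p = {0}`: Wilson primes of
order `n`; `T p = {-b, …, b}`: near Wilson primes).

Proof. The quotients of the orders `n` and `n' > n` differ modulo `p` by `1 / n + … + 1 / (n' - 1)`. If they are congruent, then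
`p ≥ n'` divides the numerator of this sum, which is less than `n' ^ (n' - n)`. So this happens for at most `n' - n - 1` primes.
For each prime the number of the orders of a set with quotients in `T p` is at most `B` plus the number of pairs of orders with
congruent quotients.
-/

set_option autoImplicit false

namespace Pool.Agent.Results.MP_de5eaa_nt.RareForMostOrders

open Finset
open scoped Nat

open Classical in
/-- the number of the primes `p ≤ x`, not less than the elements of `S`, for which
`(-1) ^ n (n - 1)! (p - n)! ≡ 1 + p t` modulo `p ^ 2` for some `t ∈ T p` -/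
noncomputable def count (S : Finset ℕ) (T : ℕ → Finset ℤ) (n x : ℕ) : ℕ :=
  ((Icc 1 x).filter fun p => p.Prime ∧ (∀ m ∈ S, m ≤ p) ∧
    ∃ t ∈ T p, (p : ℤ) ^ 2 ∣ (-1) ^ n * ((n - 1)! * (p - n)! : ℕ) - (1 + p * t)).card

open Pool.Agent.K9h54.WQ in
/-- For each finite set `S` of orders and all sets `T p` of at most `B` integers the sum of these numbers over the orders
`n ∈ S` is at most `B π(x)` plus the sum of the `n' - n - 1` over the pairs `n < n'` of orders in `S`. -/
theorem result (S : Finset ℕ) (hS : ∀ n ∈ S, 1 ≤ n) (B x : ℕ) (T : ℕ → Finset ℤ) (hT : ∀ p, (T p).card ≤ B) :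
    ∑ n ∈ S, count S T n x ≤
      B * ((Icc 1 x).filter Nat.Prime).card + ∑ q ∈ (S ×ˢ S).filter (fun q => q.1 < q.2), (q.2 - q.1 - 1) := by
  classical
  refine le_trans (sum_le_sum fun n hn => ?_)
    (rare S hS B x (fun p => (T p).image (Int.cast : ℤ → ZMod p)) fun p => card_image_le.trans (hT p))
  unfold count
  apply card_le_card
  intro p hp
  rw [mem_filter] at hp ⊢
  obtain ⟨h1, h2, h3, t, ht, h4⟩ := hp
  refine ⟨h1, h2, h3, ?_⟩
  rw [mem_image]
  refine ⟨t, ht, ?_⟩
  rw [← wq_eq h2 (hS n hn) (h3 n hn)] at h4
  have e : (p : ℤ) * wq n p + 1 - (1 + p * t) = p * (wq n p - t) := by ring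
  have hp0 : (p : ℤ) ≠ 0 := by exact_mod_cast h2.ne_zero
  rw [e, pow_two, mul_dvd_mul_iff_left hp0] at h4
  rw [eq_comm, ← sub_eq_zero, ← Int.cast_sub, ZMod.intCast_zmod_eq_zero_iff_dvd]
  exact h4

end Pool.Agent.Results.MP_de5eaa_nt.RareForMostOrders
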